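import Pool.Agent.H592.TD.Stm

/-!
# TD3: one-variable sums (helper113)
-/

set_option autoImplicit false

open Finset Filter Topology

namespace Pool.Agent.H113.TD

open Pool.Agent.H592.TD
open Pool.Agent.H329R2.AD (Pr)

/-- the number of the multiples -/
theorem cnt {d e : ℕ} (hd : d ∣ e) (he : 1 ≤ e) : ((range e).filter (fun r => d ∣ r)).card = e / d := by
  obtain ⟨g, rfl⟩ := hd
  have hd0 : 0 < d := Nat.pos_of_ne_zero (by rintro rfl; simp at he)
  rw [Nat.mul_div_cancel_left _ hd0]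
  conv_rhs => rw [← card_range g]
  symm
  refine Finset.card_bij (fun w _ => d * w) ?_ ?_ ?_
  · intro w hw
    rw [mem_range] at hw
    rw [mem_filter, mem_range]
    exact ⟨Nat.mul_lt_mul_of_pos_left hw hd0, dvd_mul_right _ _⟩
  · intro w _ w' _ h
    exact Nat.eq_of_mul_eq_mul_left hd0 h
  · intro r hr
    rw [mem_filter, mem_range] at hr
    obtain ⟨hr, w, rfl⟩ := hr
    exact ⟨w, mem_range.2 (Nat.lt_of_mul_lt_mul_left hr), rfl⟩

theorem gcd_sum (a : ℕ) {e : ℕ} (he : 1 ≤ e) :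
    (Nat.gcd a e : ℝ) = ∑ d ∈ e.divisors, if d ∣ a then (d.totient : ℝ) else 0 := by
  have h := Nat.sum_totient (Nat.gcd a e)
  have h2 : (Nat.gcd a e).divisors = e.divisors.filter (fun d => d ∣ a) := by
    ext d
    rw [mem_filter, Nat.mem_divisors, Nat.mem_divisors, Nat.dvd_gcd_iff]
    have : Nat.gcd a e ≠ 0 := Nat.gcd_ne_zero_right (by omega)
    constructor
    · rintro ⟨⟨h1, h2⟩, _⟩
      exact ⟨⟨h2, by omega⟩, h1⟩
    · rintro ⟨⟨h1, _⟩, h2⟩
      exact ⟨⟨h2, h1⟩, this⟩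
  rw [← sum_filter, ← h2]
  exact_mod_cast h.symm

/-- `∑_{r < e} (r, e)` -/
theorem sum_gcd {e : ℕ} (he : 1 ≤ e) : ∑ r ∈ range e, (Nat.gcd r e : ℝ) =
    ∑ d ∈ e.divisors, (d.totient : ℝ) * ((e : ℝ) / d) := by
  rw [sum_congr rfl fun r _ => gcd_sum r he, sum_comm]
  refine sum_congr rfl fun d hd => ?_
  have hd' := Nat.dvd_of_mem_divisors hd
  have hd0 : (d : ℝ) ≠ 0 := by
    have := Nat.pos_of_mem_divisors hd
    positivity
  rw [← sum_filter, sum_const, nsmul_eq_mul, cnt hd' he, Nat.cast_div hd' hd0]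
  ring

theorem cnt_mul {r e : ℕ} (he : 1 ≤ e) :
    ((range e).filter (fun v => e ∣ r * v)).card = Nat.gcd r e := by
  set g := Nat.gcd r e with hg
  have hg0 : 0 < g := Nat.gcd_pos_of_pos_right _ he
  obtain ⟨r', hr'⟩ := Nat.gcd_dvd_left r e
  obtain ⟨e', he'⟩ := Nat.gcd_dvd_right r e
  rw [← hg] at hr' he'
  have hcop : Nat.Coprime e' r' := by
    have h1 : Nat.gcd (g * r') (g * e') = g := by rw [← hr', ← he']
    rw [Nat.gcd_mul_left] at h1
    have h2 : Nat.gcd r' e' = 1 := by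
      have : g * Nat.gcd r' e' = g * 1 := by rw [h1, mul_one]
      exact Nat.eq_of_mul_eq_mul_left hg0 this
    rw [Nat.coprime_comm]
    exact h2
  have h1 : (range e).filter (fun v => e ∣ r * v) = (range e).filter (fun v => e' ∣ v) := by
    refine filter_congr fun v _ => ?_
    constructor
    · intro h
      have h2 : g * e' ∣ g * (r' * v) := by
        rw [← he', ← mul_assoc, ← hr']
        exact h
      exact hcop.dvd_of_dvd_mul_left (Nat.dvd_of_mul_dvd_mul_left hg0 h2)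
    · rintro ⟨w, rfl⟩
      refine ⟨r' * w, ?_⟩
      rw [hr']
      conv_rhs => rw [he']
      ring
  rw [h1, cnt ⟨g, by rw [he', mul_comm]⟩ he]
  conv_lhs => rw [he']
  have he0 : 0 < e' := Nat.pos_of_ne_zero (by rintro rfl; omega)
  exact Nat.mul_div_cancel _ he0

theorem Pr_two {e : ℕ} (he : 1 ≤ e) :
    Pr 2 e = 1 / (e : ℝ) * ∑ d ∈ e.divisors, (d.totient : ℝ) * (1 / d) := by
  have he0 : (e : ℝ) ≠ 0 := by
    have : 0 < e := he
    positivity
  unfold Pr
  have h1 : (((Fintype.piFinset (fun _ : Fin 2 => range e)).filter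
      (fun v => e ∣ ∏ i, v i)).card : ℝ) = ∑ r ∈ range e, (Nat.gcd r e : ℝ) := by
    have h2 : ((Fintype.piFinset (fun _ : Fin 2 => range e)).filter
        (fun v => e ∣ ∏ i, v i)).card = ((range e ×ˢ range e).filter
          (fun p : ℕ × ℕ => e ∣ p.1 * p.2)).card := by
      refine Finset.card_bij (fun v _ => (v 0, v 1)) ?_ ?_ ?_
      · intro v hv
        rw [mem_filter, Fintype.mem_piFinset] at hv
        rw [mem_filter, mem_product]
        refine ⟨⟨hv.1 0, hv.1 1⟩, ?_⟩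
        have := hv.2
        rwa [Fin.prod_univ_two] at this
      · intro v _ w _ h
        have h3 := congrArg Prod.fst h
        have h4 := congrArg Prod.snd h
        funext i
        fin_cases i
        · exact h3
        · exact h4
      · rintro ⟨x, y⟩ hp
        rw [mem_filter, mem_product] at hp
        refine ⟨![x, y], ?_, rfl⟩
        rw [mem_filter, Fintype.mem_piFinset, Fin.prod_univ_two]
        refine ⟨?_, hp.2⟩
        intro i
        fin_cases i
        · exact hp.1.1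
        · exact hp.1.2
    rw [h2, card_filter, sum_product]
    push_cast
    refine sum_congr rfl fun r _ => ?_
    have h3 := cnt_mul (r := r) he
    rw [card_filter] at h3
    exact_mod_cast h3
  rw [h1, sum_gcd he, mul_sum, sum_div]
  refine sum_congr rfl fun d hd => ?_
  have hd0 : (d : ℝ) ≠ 0 := by
    have := Nat.pos_of_mem_divisors hd
    positivity
  field_simp

/-! ### harmonic sums -/

theorem sum_Ioc_inv {m n : ℕ} (hmn : m ≤ n) :
    ∑ b ∈ Ioc m n, 1 / (b : ℝ) = (harmonic n : ℝ) - (harmonic m : ℝ) := by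
  induction n, hmn using Nat.le_induction with
  | base => simp
  | succ n hn ih =>
    rw [Finset.sum_Ioc_succ_top hn, ih, harmonic_succ]
    push_cast
    ring

theorem sum_mult {m n d : ℕ} (hd : 1 ≤ d) :
    ∑ a ∈ (Ioc m n).filter (fun a => d ∣ a), 1 / (a : ℝ) =
      1 / (d : ℝ) * ∑ b ∈ Ioc (m / d) (n / d), 1 / (b : ℝ) := by
  have hd0 : 0 < d := hd
  rw [mul_sum]
  symm
  refine Finset.sum_bij (fun b _ => d * b) ?_ ?_ ?_ ?_
  · intro b hb
    rw [mem_Ioc] at hb
    rw [mem_filter, mem_Ioc]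
    refine ⟨⟨?_, ?_⟩, dvd_mul_right _ _⟩
    · have := (Nat.div_lt_iff_lt_mul hd0).1 hb.1
      rwa [mul_comm] at this
    · have := (Nat.le_div_iff_mul_le hd0).1 hb.2
      rwa [mul_comm] at this
  · intro b _ b' _ h
    exact Nat.eq_of_mul_eq_mul_left hd0 h
  · intro a ha
    rw [mem_filter, mem_Ioc] at ha
    obtain ⟨⟨h1, h2⟩, b, rfl⟩ := ha
    refine ⟨b, ?_, rfl⟩
    rw [mem_Ioc]
    constructor
    · rw [Nat.div_lt_iff_lt_mul hd0, mul_comm]
      exact h1
    · rw [Nat.le_div_iff_mul_le hd0, mul_comm]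
      exact h2
  · intro b _
    push_cast
    rw [one_div_mul_one_div]

/-- upper bound -/
theorem har_up {X β : ℝ} (hX : 1 ≤ X) (hβ : 0 < β) (d : ℕ) :
    (harmonic (⌊X ^ β⌋₊ / d) : ℝ) ≤ 1 + β * Real.log X := by
  have hX0 : 0 < X := by linarith
  refine (harmonic_le_one_add_log _).trans ?_
  have hl : 0 ≤ β * Real.log X := mul_nonneg hβ.le (Real.log_nonneg hX)
  rcases Nat.eq_zero_or_pos (⌊X ^ β⌋₊ / d) with h | h
  · rw [h, Nat.cast_zero, Real.log_zero]
    linarith
  · rw [← Real.log_rpow hX0]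
    have h1 : ((⌊X ^ β⌋₊ / d : ℕ) : ℝ) ≤ X ^ β := by
      refine le_trans ?_ (Nat.floor_le (by positivity))
      exact_mod_cast Nat.div_le_self _ _
    have h2 : (0 : ℝ) < ((⌊X ^ β⌋₊ / d : ℕ) : ℝ) := by exact_mod_cast h
    have := Real.log_le_log h2 h1
    linarith

/-- lower bound -/
theorem har_lo {X β : ℝ} (hX : 1 ≤ X) {d : ℕ} (hd : 1 ≤ d) :
    β * Real.log X - Real.log d ≤ (harmonic (⌊X ^ β⌋₊ / d) : ℝ) := by
  have hX0 : 0 < X := by linarith
  have hd0 : (0 : ℝ) < d := by exact_mod_cast hd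
  refine le_trans ?_ (log_add_one_le_harmonic _)
  rw [← Real.log_rpow hX0, ← Real.log_div (by positivity) (by positivity)]
  refine Real.log_le_log (by positivity) ?_
  have h1 : ⌊X ^ β⌋₊ / d = ⌊X ^ β / d⌋₊ := (Nat.floor_div_natCast _ _).symm
  rw [h1]
  exact_mod_cast (Nat.lt_floor_add_one (X ^ β / d)).le

/-- `∑_{X^α < a ≤ X^β, d ∣ a} 1/a` -/
noncomputable def HH (X α β : ℝ) (d : ℕ) : ℝ :=
  ∑ a ∈ (In X α β).filter (fun a => d ∣ a), 1 / (a : ℝ)

theorem HH_eq {X α β : ℝ} (hX : 1 ≤ X) (hαβ : α < β) {d : ℕ} (hd : 1 ≤ d) :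
    HH X α β d = 1 / (d : ℝ) * ((harmonic (⌊X ^ β⌋₊ / d) : ℝ) - (harmonic (⌊X ^ α⌋₊ / d) : ℝ)) := by
  unfold HH In
  rw [sum_mult hd, sum_Ioc_inv]
  apply Nat.div_le_div_right
  apply Nat.floor_le_floor
  exact Real.rpow_le_rpow_of_exponent_le hX hαβ.le

theorem HH_tendsto {α β : ℝ} (hα : 0 < α) (hαβ : α < β) {d : ℕ} (hd : 1 ≤ d) :
    Tendsto (fun X : ℝ => HH X α β d / Real.log X) atTop (𝓝 ((β - α) * (1 / d))) := by
  have hβ : 0 < β := by linarith
  have key : ∀ γ : ℝ, 0 < γ → Tendsto (fun X : ℝ =>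
      (harmonic (⌊X ^ γ⌋₊ / d) : ℝ) / Real.log X) atTop (𝓝 γ) := by
    intro γ hγ
    have h1 : Tendsto (fun X : ℝ => γ - Real.log d / Real.log X) atTop (𝓝 γ) := by
      have := (tendsto_const_nhds (x := γ)).sub
        (Real.tendsto_log_atTop.const_div_atTop (Real.log d))
      rwa [sub_zero] at this
    have h2 : Tendsto (fun X : ℝ => γ + 1 / Real.log X) atTop (𝓝 γ) := by
      have := (tendsto_const_nhds (x := γ)).add (Real.tendsto_log_atTop.const_div_atTop (1 : ℝ))
      rwa [add_zero] at this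
    refine tendsto_of_tendsto_of_tendsto_of_le_of_le' h1 h2 ?_ ?_
    · filter_upwards [eventually_gt_atTop (1 : ℝ)] with X hX
      have hl : 0 < Real.log X := Real.log_pos hX
      rw [le_div_iff₀ hl, sub_mul, div_mul_cancel₀ _ hl.ne']
      exact har_lo hX.le hd
    · filter_upwards [eventually_gt_atTop (1 : ℝ)] with X hX
      have hl : 0 < Real.log X := Real.log_pos hX
      rw [div_le_iff₀ hl, add_mul, one_div_mul_cancel hl.ne']
      linarith [har_up hX.le hγ d]
  have h3 := ((key β hβ).sub (key α hα)).mul_const (1 / (d : ℝ))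
  refine h3.congr' ?_
  filter_upwards [eventually_gt_atTop (1 : ℝ)] with X hX
  rw [HH_eq hX.le hαβ hd]
  ring

theorem HH_le {X α β : ℝ} (hX : 1 ≤ X) (hαβ : α < β) (hβ : 0 < β) {d : ℕ} (hd : 1 ≤ d) :
    HH X α β d ≤ 1 / (d : ℝ) * (1 + β * Real.log X) := by
  rw [HH_eq hX hαβ hd]
  have h1 := har_up hX hβ d
  have h2 : (0 : ℝ) ≤ (harmonic (⌊X ^ α⌋₊ / d) : ℝ) := by
    rw [harmonic]
    push_cast
    positivity
  have hd0 : (0 : ℝ) < d := by exact_mod_cast hd
  have h3 : (0 : ℝ) ≤ 1 / (d : ℝ) := by positivity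
  exact mul_le_mul_of_nonneg_left (by linarith) h3

theorem W1_eq (X α β : ℝ) {e : ℕ} (he : 1 ≤ e) :
    W1 X α β e = 1 / (e : ℝ) * ∑ d ∈ e.divisors, (d.totient : ℝ) * HH X α β d := by
  unfold W1 HH
  rw [mul_sum]
  have h1 : ∀ a ∈ In X α β, (Nat.gcd a e : ℝ) / ((e : ℝ) * a) =
      ∑ d ∈ e.divisors, if d ∣ a then 1 / (e : ℝ) * ((d.totient : ℝ) * (1 / (a : ℝ))) else 0 := by
    intro a _
    rw [gcd_sum a he, sum_div]
    refine sum_congr rfl fun d _ => ?_
    split_ifs
    · ring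
    · simp
  rw [sum_congr rfl h1, sum_comm]
  refine sum_congr rfl fun d _ => ?_
  rw [← sum_filter, mul_sum, mul_sum]

/-- **TD3.** -/
theorem s3 : S3 := by
  intro α β hα hαβ
  have hβ : 0 < β := by linarith
  refine ⟨?_, ?_⟩
  · intro e he
    have h1 : Tendsto (fun X : ℝ => ∑ d ∈ e.divisors,
        1 / (e : ℝ) * ((d.totient : ℝ) * (HH X α β d / Real.log X))) atTop
        (𝓝 (∑ d ∈ e.divisors, 1 / (e : ℝ) * ((d.totient : ℝ) * ((β - α) * (1 / d))))) := by
      refine tendsto_finsetSum _ fun d hd => ?_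
      exact ((HH_tendsto hα hαβ (Nat.pos_of_mem_divisors hd)).const_mul _).const_mul _
    have h2 : ∑ d ∈ e.divisors, 1 / (e : ℝ) * ((d.totient : ℝ) * ((β - α) * (1 / d))) =
        (β - α) * Pr 2 e := by
      rw [Pr_two he, mul_sum, mul_sum]
      exact sum_congr rfl fun d _ => by ring
    rw [h2] at h1
    refine h1.congr fun X => ?_
    rw [W1_eq X α β he, mul_sum, sum_div]
    exact sum_congr rfl fun d _ => by ring
  · have l2 : 0 < Real.log 2 := Real.log_pos (by norm_num)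
    refine ⟨1 / Real.log 2 + β, by positivity, ?_⟩
    intro X hX e he
    have he0 : (0 : ℝ) < e := by exact_mod_cast he
    have hlX : Real.log 2 ≤ Real.log X := Real.log_le_log (by norm_num) hX
    have hb : 1 + β * Real.log X ≤ (1 / Real.log 2 + β) * Real.log X := by
      have : 1 ≤ 1 / Real.log 2 * Real.log X := by
        rw [one_div_mul_eq_div, one_le_div l2]
        exact hlX
      linarith
    have hlX0 : 0 < Real.log X := lt_of_lt_of_le l2 hlX
    rw [W1_eq X α β he]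
    have h1 : ∀ d ∈ e.divisors, (d.totient : ℝ) * HH X α β d ≤ 1 + β * Real.log X := by
      intro d hd
      have hd1 := Nat.pos_of_mem_divisors hd
      have hd0 : (0 : ℝ) < d := by exact_mod_cast hd1
      have h2 := HH_le (by linarith : (1 : ℝ) ≤ X) hαβ hβ hd1
      have h3 : (d.totient : ℝ) ≤ d := by exact_mod_cast Nat.totient_le d
      have h4 : (0 : ℝ) ≤ 1 + β * Real.log X := by positivity
      calc (d.totient : ℝ) * HH X α β d ≤ d.totient * (1 / (d : ℝ) * (1 + β * Real.log X)) := by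
            gcongr
        _ ≤ d * (1 / (d : ℝ) * (1 + β * Real.log X)) := by
            gcongr
        _ = 1 + β * Real.log X := by field_simp
    have h5 := sum_le_card_nsmul _ _ _ h1
    rw [nsmul_eq_mul] at h5
    calc 1 / (e : ℝ) * ∑ d ∈ e.divisors, (d.totient : ℝ) * HH X α β d
        ≤ 1 / (e : ℝ) * ((e.divisors.card : ℝ) * (1 + β * Real.log X)) := by gcongr
      _ ≤ 1 / (e : ℝ) * ((e.divisors.card : ℝ) * ((1 / Real.log 2 + β) * Real.log X)) := by
          gcongr
      _ = _ := by ring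

end Pool.Agent.H113.TD
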